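import Pool.Agent.V8H30.WqoForbid
import Pool.Agent.V8H30.WqoAll

/-!
# (diamond, P₁+2P₂)-free graphs are well-quasi-ordered by the induced subgraph relation

Q1 of the problem, answered affirmatively: in every infinite sequence of finite
(diamond, P₁+2P₂)-free graphs some term is an induced subgraph of a later one; in particular
the class contains no infinite antichain.
-/

namespace Pool.Agent.Results.MP_d1cbdd_co.DiamondP1Add2P2Wqo

open SimpleGraph Pool.Agent.V8H30.Wqo

universe u

theorem result {V : ℕ → Type u} [∀ n, Fintype (V n)] (G : ∀ n, SimpleGraph (V n))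
    (h₁ : ∀ n, ¬ diamond ⊴ G n) (h₂ : ∀ n, ¬ oneTwoTwo ⊴ G n) :
    ∃ m n, m < n ∧ G m ⊴ G n :=
  lay_wqo nAll G (fun n => (good_of_free (h₁ n) (h₂ n)).lay_all)

end Pool.Agent.Results.MP_d1cbdd_co.DiamondP1Add2P2Wqo
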